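import Pool.Agent.Lib.MP_82a8ee_lc.Few.Kernel

set_option autoImplicit false

namespace Pool.Agent.Results.MP_82a8ee_lc.FewBlocks

open MP82a8ee MP82a8ee.Few

/-- PUSH-1 with the number `k` of blocks as parameter.
(1) On a board with at least two rows, any columns which contain neither the robot nor the target
may be replaced by `2 k + 1` empty columns, where `k` bounds the number of blocks in the other
columns: a solvable instance stays solvable.
(2) Deleting one of `2 k + 2` consecutive empty columns does not change solvability.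
(3) The same for rows.
(4) Kernel: every instance with at most `k` blocks arises by inserting empty rows and empty columns
from an equivalent instance on a board with fewer than `(k + 3) (2 k + 2)` rows and columns.
(5) Every solvable instance with at most `k` blocks has a solution of length `C (m + n)`, with a
constant `C` that depends only on `k`. -/
theorem result (k : ℕ) :
    (∀ (m n n' : ℕ) (a b : ℤ) (B : Set (ℤ × ℤ)) (p q : ℤ × ℤ), 2 ≤ m → 0 ≤ a → a < b → b ≤ n →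
      (n' : ℤ) = n - (b - a) + (2 * k + 1) → B ⊆ board m n →
      {c ∈ B | c.2 < a ∨ b ≤ c.2}.ncard ≤ k → p ∈ board m n → (p.2 < a ∨ b ≤ p.2) →
      (q.2 < a ∨ b ≤ q.2) → Solvable m n B p q →
      Solvable m n' (rep a b (2 * k + 1) '' {c ∈ B | c.2 < a ∨ b ≤ c.2})
        (rep a b (2 * k + 1) p) (rep a b (2 * k + 1) q)) ∧
    (∀ (m n : ℕ) (a : ℤ) (B : Set (ℤ × ℤ)) (p q : ℤ × ℤ), 2 ≤ m → 0 ≤ a →
      a + (2 * k + 1) ≤ n → B ⊆ board m (n + 1) → B.ncard ≤ k → p ∈ board m (n + 1) →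
      (∀ c ∈ insert p (insert q B), c.2 < a ∨ a + (2 * k + 1) < c.2) →
      (Solvable m (n + 1) B p q ↔ Solvable m n (delCol (a + (2 * k + 1)) '' B)
        (delCol (a + (2 * k + 1)) p) (delCol (a + (2 * k + 1)) q))) ∧
    (∀ (m n : ℕ) (a : ℤ) (B : Set (ℤ × ℤ)) (p q : ℤ × ℤ), 2 ≤ n → 0 ≤ a →
      a + (2 * k + 1) ≤ m → B ⊆ board (m + 1) n → B.ncard ≤ k → p ∈ board (m + 1) n →
      (∀ c ∈ insert p (insert q B), c.1 < a ∨ a + (2 * k + 1) < c.1) →
      (Solvable (m + 1) n B p q ↔ Solvable m n (delRow (a + (2 * k + 1)) '' B)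
        (delRow (a + (2 * k + 1)) p) (delRow (a + (2 * k + 1)) q))) ∧
    (∀ (m n : ℕ) (B : Set (ℤ × ℤ)) (p q : ℤ × ℤ), 2 ≤ m → 2 ≤ n → B ⊆ board m n →
      B.ncard ≤ k → p ∈ board m n → q ∈ board m n →
      ∃ (m₀ n₀ : ℕ) (ρ κ : ℤ → ℤ) (B₀ : Set (ℤ × ℤ)) (p₀ q₀ : ℤ × ℤ),
        m₀ < (k + 3) * (2 * k + 2) ∧ n₀ < (k + 3) * (2 * k + 2) ∧ Emb m₀ n₀ m n ρ κ ∧
        B₀ ⊆ board m₀ n₀ ∧ p₀ ∈ board m₀ n₀ ∧ q₀ ∈ board m₀ n₀ ∧ B = Ph ρ κ '' B₀ ∧
        p = Ph ρ κ p₀ ∧ q = Ph ρ κ q₀ ∧ (Solvable m n B p q ↔ Solvable m₀ n₀ B₀ p₀ q₀)) ∧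
    (∃ C : ℕ, ∀ (m n : ℕ) (B : Set (ℤ × ℤ)) (p q : ℤ × ℤ), 2 ≤ m → 2 ≤ n → B ⊆ board m n →
      B.ncard ≤ k → p ∈ board m n → q ∈ board m n → Solvable m n B p q →
      ∃ (l : List Dir) (B' : Set (ℤ × ℤ)), l.length ≤ C * (m + n) ∧
        Route m n l ⟨B, p⟩ ⟨B', q⟩) :=
  ⟨fun _ _ _ _ _ _ _ _ hm ha hab hbn hn' hB hk hp hpo hqo hs =>
      replace_cols hm ha hab hbn le_rfl hn' hB hk hp hpo hqo hs,
    fun _ _ _ _ _ _ hm ha han hB hk hp h => delete_col hm ha han hB hk hp h,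
    fun _ _ _ _ _ _ hn ha ham hB hk hp h => delete_row hn ha ham hB hk hp h,
    fun _ _ _ _ _ hm hn hB hk hp hq => kernel k hm hn hB hk hp hq, short k⟩

end Pool.Agent.Results.MP_82a8ee_lc.FewBlocks
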