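import Pool.Agent.Lib.MP_82a8ee_lc.Sparse.Shift

set_option autoImplicit false

namespace Pool.Agent.Results.MP_82a8ee_lc.SparseBoards

open MP82a8ee MP82a8ee.Sparse

/-- PUSH-1 with unboundedly many blocks in clusters: (1) what is outside of an empty moat of width
`2 k + 1` around a rectangle with at most `k` blocks does not matter for the routes from the
rectangle to itself; (2) when the blocks lie in rectangles with such moats, every other instance is
decided in the windows of the robot and of the target; (3) the windows are boards. -/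
theorem result :
    (∀ (m n k : ℕ) (K : Rect) (B : Set (ℤ × ℤ)), K.OK m n k → (B ∩ K.core).ncard ≤ k →
      (∀ c ∈ B, c ∈ K.win m n (2 * k + 1) → c ∈ K.core) →
      ∀ p q : ℤ × ℤ, p ∈ K.core → q ∈ K.core →
      (Solvable m n B p q ↔ SolvableIn (K.win m n (2 * k + 1)) (B ∩ K.core) p q)) ∧
    (∀ (ι : Type) (m n : ℕ) (B : Set (ℤ × ℤ)) (K : ι → Rect) (k : ι → ℕ),
      Scattered m n B K k → ∀ v w : ι → ℤ × ℤ,
      (∀ e, v e ∈ (K e).win m n (2 * k e + 1) \ (K e).win m n (2 * k e)) →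
      (∀ e, w e ∈ (K e).win m n (2 * k e + 1) \ (K e).core) →
      ∀ p q : ℤ × ℤ, p ∈ board m n → q ∈ board m n → (∀ e, p ∈ (K e).core → q ∉ (K e).core) →
      (Solvable m n B p q ↔
        (∀ e, p ∈ (K e).core →
          SolvableIn ((K e).win m n (2 * k e + 1)) (B ∩ (K e).core) p (v e)) ∧
        (∀ e, q ∈ (K e).core →
          SolvableIn ((K e).win m n (2 * k e + 1)) (B ∩ (K e).core) (w e) q))) ∧
    (∀ (m n k : ℕ) (K : Rect), K.OK m n k →
      (K.win m n (2 * k + 1) \ K.win m n (2 * k)).Nonempty ∧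
      ∃ (m' n' : ℕ) (v : ℤ × ℤ), 2 ≤ m' ∧ 2 ≤ n' ∧
        (m' : ℤ) ≤ K.r1 - K.r0 + (4 * k + 2) ∧ (n' : ℤ) ≤ K.c1 - K.c0 + (4 * k + 2) ∧
        ∀ (B : Set (ℤ × ℤ)) (p q : ℤ × ℤ), SolvableIn (K.win m n (2 * k + 1)) B p q ↔
          Solvable m' n' {c | c + v ∈ B} (p - v) (q - v)) :=
  ⟨fun _ _ _ _ _ hK hk he _ _ hp hq => local_iff hK hk he hp hq,
    fun _ _ _ _ _ _ h _ _ hv hw _ _ hp hq hpq => glob_iff h hv hw hp hq hpq,
    fun _ _ _ _ hK => ⟨layer hK, win_eq hK⟩⟩

end Pool.Agent.Results.MP_82a8ee_lc.SparseBoards
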