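import Pool.Agent.Lib.MP_82a8ee_lc.Three.Rows

set_option autoImplicit false

namespace Pool.Agent.Results.MP_82a8ee_lc.ThreeRowRegular

open MP82a8ee MP82a8ee.Three

/-- PUSH-1 on boards with at most three rows is a regular language.  An instance with `n` columns
is written column by column as a word of length `n`; each letter tells for the cells of the column
whether the cell holds a block, holds the robot, is the target. -/
theorem result (m : ℕ) (hm : m ≤ 3) : (solvableWords m).IsRegular := rows_regular m hm

end Pool.Agent.Results.MP_82a8ee_lc.ThreeRowRegular
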