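import Pool.Agent.Lib.MP_82a8ee_lc.Reach

set_option autoImplicit false

namespace Pool.Agent.Results.MP_82a8ee_lc.TwoRowRoutes

open MP82a8ee

/-- On a board with two rows and `n` columns, whenever the target of a PUSH-1 instance can be
reached at all, it can be reached in at most `3 n / 2` moves, by a route of a very simple shape:
for one of the two horizontal directions `e`, the route consists of an optional prefix of three
moves (one move against `e`, one vertical move, one move in direction `e`) followed by moves none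
of which goes against `e`.  In particular the route changes its horizontal direction at most
once. -/
theorem result (n : ℕ) (B : Set (ℤ × ℤ)) (p q : ℤ × ℤ) (hB : B ⊆ board 2 n)
    (hp : p ∈ board 2 n) (hpB : p ∉ B) (hs : Solvable 2 n B p q) :
    ∃ (l : List Dir) (B' : Set (ℤ × ℤ)), Route 2 n l ⟨B, p⟩ ⟨B', q⟩ ∧
      2 * l.length ≤ 3 * n ∧
      ∃ e : Dir, (e = Dir.left ∨ e = Dir.right) ∧
        ∃ pre mono : List Dir, l = pre ++ mono ∧
          (pre = [] ∨ ∃ v : Dir, (v = Dir.up ∨ v = Dir.down) ∧ pre = [e.flip, v, e]) ∧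
          ∀ d ∈ mono, d ≠ e.flip := by
  obtain ⟨l, B1, hl⟩ := hs
  have hok : Ok n ⟨B ∪ (board 2 n)ᶜ, p⟩ := by
    refine ⟨?_, fun c hc => Or.inr hc⟩
    rintro (h | h)
    · exact hpB h
    · exact h hp
  obtain ⟨Q, l', e, he, h1, h2, h3⟩ := reach_G hok hl.toG
  obtain ⟨B', h4, _⟩ := h1.toRoute hB rfl hok
  exact ⟨l', B', h4, h3, e, he, h2⟩

end Pool.Agent.Results.MP_82a8ee_lc.TwoRowRoutes
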